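import Pool.Agent.Helper59.AN.Goals
import Pool.Agent.Helper46.NU.DfnT

/-! # MP_4137ca_lc, packet SYA: analytic sets are definable -/

noncomputable section

namespace AN.PkSYA

open Pool.Agent.Helper97.Ku NU

/-- `b`, `b + 1`, ... are fresh variables. -/
theorem ino (o c k x y b : ℕ) (ho : o < b) (hc : c < b) (hk : k < b) (hx : x < b) (hy : y < b) :
    Dfn (fun _ E w => InO E (w o) (w c) (w k) (w x) (w y))
      (fun _ _ w => inoV (w o) (w c) (w k) (w x) (w y)) := by
  have o0 : o ≠ b := by omega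
  have o1 : o ≠ b + 1 := by omega
  have o2 : o ≠ b + 2 := by omega
  have o3 : o ≠ b + 3 := by omega
  have c0 : c ≠ b := by omega
  have c1 : c ≠ b + 1 := by omega
  have c2 : c ≠ b + 2 := by omega
  have c3 : c ≠ b + 3 := by omega
  have k0 : k ≠ b := by omega
  have k1 : k ≠ b + 1 := by omega
  have k2 : k ≠ b + 2 := by omega
  have k3 : k ≠ b + 3 := by omega
  have x0 : x ≠ b := by omega
  have x1 : x ≠ b + 1 := by omega
  have x2 : x ≠ b + 2 := by omega
  have x3 : x ≠ b + 3 := by omega
  have y0 : y ≠ b := by omega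
  have y1 : y ≠ b + 1 := by omega
  have y2 : y ≠ b + 2 := by omega
  have y3 : y ≠ b + 3 := by omega
  -- n = b, s = b + 1, t = b + 2, q = b + 3
  exact Dfn.congr (Dfn.ex b (Dfn.ex (b + 1) (Dfn.ex (b + 2) (Dfn.ex (b + 3)
    (Dfn.and (Dfn.mem b o) (Dfn.and (Dfn.lst (b + 1) b (b + 4) (by omega) (by omega))
      (Dfn.and (Dfn.lst (b + 2) b (b + 4) (by omega) (by omega))
      (Dfn.and (Dfn.agb b (b + 1) x (b + 4) (by omega) (by omega) (by omega))
      (Dfn.and (Dfn.agb b (b + 2) y (b + 4) (by omega) (by omega) (by omega))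
      (Dfn.and (Dfn.pr (b + 3) (b + 1) (b + 2) (b + 4) (b + 5) (by omega) (by omega) (by omega)
          (by omega) (by omega) (by omega))
        (Dfn.ap c k (b + 3) (b + 4) (b + 5) (b + 6) (by omega) (by omega) (by omega) (by omega)
          (by omega) (by omega) (by omega) (by omega) (by omega) (by omega))))))))))))
    (fun N E w => by
      simp [InO, Function.update_apply, o0, o1, o2, o3, c0, c1, c2, c3, k0, k1, k2, k3, x0, x1, x2,
        x3, y0, y1, y2, y3])
    (fun L _ w => by
      simp [inoV, Function.update_apply, o0, o1, o2, o3, c0, c1, c2, c3, k0, k1, k2, k3, x0, x1,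
        x2, x3, y0, y1, y2, y3])

theorem prj (o c x b : ℕ) (ho : o < b) (hc : c < b) (hx : x < b) :
    Dfn (fun _ E w => ∃ y, Sub E y (w o) ∧ ∀ k, E k (w o) → InO E (w o) (w c) k (w x) y)
      (fun _ _ w => prjV (w o) (w c) (w x)) := by
  have o0 : o ≠ b := by omega
  have o1 : o ≠ b + 1 := by omega
  have c0 : c ≠ b := by omega
  have c1 : c ≠ b + 1 := by omega
  have x0 : x ≠ b := by omega
  have x1 : x ≠ b + 1 := by omega
  exact Dfn.congr (Dfn.ex b (Dfn.and (Dfn.sub b o (b + 1) (by omega) (by omega))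
    (Dfn.all (b + 1) (Dfn.imp (Dfn.mem (b + 1) o)
      (ino o c (b + 1) x b (b + 2) (by omega) (by omega) (by omega) (by omega) (by omega))))))
    (fun N E w => by simp [Function.update_apply, o0, o1, c0, c1, x0, x1])
    (fun L _ w => by simp [prjV, Function.update_apply, o0, o1, c0, c1, x0, x1])

theorem sya : G_SYA := by
  intro i j
  obtain ⟨m, hm⟩ : ∃ m, m = max i j + 1 := ⟨_, rfl⟩
  have hi : i < m := by rw [hm]; exact Nat.lt_succ_of_le (le_max_left _ _)
  have hj : j < m := by rw [hm]; exact Nat.lt_succ_of_le (le_max_right _ _)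
  have i0 : i ≠ m := by omega
  have i1 : i ≠ m + 1 := by omega
  have j0 : j ≠ m := by omega
  have j1 : j ≠ m + 1 := by omega
  exact Dfn.congr (Dfn.ex m (Dfn.all (m + 1) (Dfn.iff (Dfn.mem (m + 1) j)
    (Dfn.and (Dfn.sub (m + 1) i (m + 2) (by omega) (by omega))
      (prj i m (m + 1) (m + 2) (by omega) (by omega) (by omega))))))
    (fun N E w => by simp [IsAna, Function.update_apply, i0, i1, j0, j1])
    (fun L _ w => by simp [anaV, Function.update_apply, i0, i1, j0, j1])

end AN.PkSYA
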